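import Pool.Agent.E8helper60.AW.Nav

/-!
# Navarro's blockwise conjecture: one congruence, or an approximate equality, decides

Let `p` be a prime, `F` an algebraically closed field of characteristic `p` and `red` a ring
homomorphism from the ring of the algebraic integers of `ℂ` to `F`. A block of `G` is given by its
central character, an `F`-algebra homomorphism `B` from the class functions `G → F` (the centre of
`F[G]`) to `F`. Notation:

* `numIBr G B = |IBr_Γ(B)|`, and `numDz p red G Q B = |dz(N_Γ(Q)/Q | B)|`;
* `InDefect p G B Q`: `Q ∩ G` is contained in a defect group of `B`;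
* `thetaSum p red G B`: the right hand side of Navarro's equality;
* `NavarroTheta p red G`: Navarro's equality for all `Γ`-invariant blocks `B` of `G`;
* `numIrrBlock B = l(B)`: the number of the irreducible characters of `H` over `F` in `B`;
* `numWts p red B = w(B)`: the number of the `H`-classes of weights of the block `B` of `H`;
* `Reduced p H`: `H` has no normal subgroup of index `p` and no nontrivial normal `p`-subgroup;
* `Closed p X`: the class `X` of groups is closed under isomorphisms, subgroups and quotients by
  normal `p`-subgroups;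
* `H ≀ᵣ C` (`RegularWreathProduct H C`): the wreath product of `H` with a group `C` of prime order
  `q`; a block `B'` of `H ≀ᵣ C` lies over `B ⊗ ⋯ ⊗ B` (`LiesOver B B'`) if `B'` has the value
  `B(f)^q` at `f ⊗ ⋯ ⊗ f`, for all class functions `f` on `H`.

The proof is that of `Pool.Agent.Results.MP_78bba1_al.OneCongruenceH60`, with the exact formulas
`q ∑ l(B') = l(B)^q + a l(B)` and `q ∑ w(B') = w(B)^q + a w(B)` for the blocks `B'` of `H ≀ᵣ C` over
`B ⊗ ⋯ ⊗ B`, together with the equivalence of Navarro's equality for a class of groups with the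
blockwise weight conjecture for the reduced groups in the class.
-/

set_option autoImplicit false

open scoped Classical

noncomputable section

namespace Pool.Agent.Results.MP_0c8ca5_al.OneCongruenceH60

open Pool.Agent.Y63.NV (IsIrrTrace IsClassFun IsBlock IsInvBlock InDefect numIBr numDz NavarroTheta
  numIrrBlock numWtBlock Closed Reduced)
open Pool.Agent.Y63.AWC (pSubgroupSetoid)

section

variable {F : Type} [Field F]

/-- The right hand side of Navarro's equality, the sum of `|dz(N_Γ(Q)/Q | B)|` over the `Γ`-classes
of `Θ_B`, the set of the `p`-subgroups `Q` of `Γ` with `GQ = Γ` such that `Q ∩ G` is contained in a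
defect group of `B`. -/
def thetaSum {Γ : Type} [Group Γ] (p : ℕ) (red : integralClosure ℤ ℂ →+* F) (G : Subgroup Γ)
    (B : (G → F) → F) : ℕ :=
  ∑ᶠ c : Quotient (pSubgroupSetoid p Γ),
    if G ⊔ c.out.1 = ⊤ ∧ InDefect p G B c.out.1 then numDz p red G c.out.1 B else 0

variable {H : Type} [Group H]

/-- `w(B)`: the number of the conjugacy classes of weights of the block `B` -/
def numWts (p : ℕ) (red : integralClosure ℤ ℂ →+* F) (B : (H → F) → F) : ℕ :=
  ∑ᶠ c : Quotient (pSubgroupSetoid p H), numWtBlock p red c.out.1 B

/-- The element `f ⊗ ⋯ ⊗ f` of the group algebra of the base group of the wreath product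
`H ≀ᵣ C`, extended by zero. -/
def pw (H C : Type) [Group H] [Group C] [Fintype C] {F : Type} [Field F] (f : H → F) :
    RegularWreathProduct H C → F :=
  fun s => if s.right = 1 then ∏ i, f (s.left i) else 0

/-- The block `B'` of the wreath product `H ≀ᵣ C` lies over the block `B ⊗ ⋯ ⊗ B`. -/
def LiesOver {C : Type} [Group C] [Fintype C] (B : (H → F) → F)
    (B' : (RegularWreathProduct H C → F) → F) : Prop :=
  ∀ f : H → F, IsClassFun f → B' (pw H C f) = B f ^ Nat.card C

end

/-- **One congruence, or an approximate equality, decides Navarro's conjecture.**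
Let `C` be a group of prime order `q` (`q = p` is allowed), let `X` be a class of groups closed under
isomorphisms, subgroups, quotients by normal `p`-subgroups and wreath products with `C` (for example
all groups), let `m` be a multiple of `q` and let `n₀` be a natural number. The following
are equivalent:

(1) Navarro's equality `|IBr_Γ(B)| = ∑_{Q ∈ Θ_B/Γ} |dz(N_Γ(Q)/Q | B)|` holds for all `Γ`-invariant
blocks `B` of all normal subgroups `G` of finite groups `Γ` such that `G` contains a normal subgroup
`N` of `Γ` in `X` for which `Γ/N` is a `p`-group;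

(2) the two sides are congruent modulo `m` for all these `Γ`, `G`, `B` with `|G| ≥ n₀`;

(3) for each `ε > 0` there is a constant `c` such that, for all these `Γ`, `G`, `B`, each side is at
most `c |G|^ε` times the other;

(4) `l(B') ≡ w(B')` modulo `m` for all blocks `B'` of `H ≀ᵣ C` over `B ⊗ ⋯ ⊗ B`, for all blocks `B`
of all finite groups `H` in `X` with `|H| ≥ n₀`, where if `q ≠ p` only the reduced groups `H` (without
normal subgroups of index `p` and without nontrivial normal `p`-subgroups) are needed;

(5) for each `ε > 0` there is a constant `c` with `l(B) ≤ c |H|^ε w(B)` and `w(B) ≤ c |H|^ε l(B)`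
for all blocks `B` of all reduced finite groups `H` in `X`. -/
theorem result (p : ℕ) [Fact p.Prime] (F : Type) [Field F] [IsAlgClosed F] [CharP F p]
    (red : integralClosure ℤ ℂ →+* F) (q : ℕ) (hq : q.Prime) (C : Type) [Group C] [Fintype C]
    (hC : Nat.card C = q) (X : ∀ (G : Type) [Group G], Prop) (hX : Closed p X)
    (hwr : ∀ (G : Type) [Group G] [Finite G], X G → X (RegularWreathProduct G C))
    (m n₀ : ℕ) (hm : q ∣ m) :
    List.TFAE [
      -- (1)
      ∀ (Γ : Type) [Group Γ] [Finite Γ] (N G : Subgroup Γ) [N.Normal] [G.Normal], N ≤ G → X N →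
        IsPGroup p (Γ ⧸ N) → NavarroTheta p red G,
      -- (2)
      ∀ (Γ : Type) [Group Γ] [Finite Γ] (N G : Subgroup Γ) [N.Normal] [G.Normal], N ≤ G → X N →
        IsPGroup p (Γ ⧸ N) → n₀ ≤ Nat.card G → ∀ B : (G → F) → F, IsBlock B → IsInvBlock G B →
        numIBr G B ≡ thetaSum p red G B [MOD m],
      -- (3)
      ∀ ε : ℝ, 0 < ε → ∃ c : ℝ, ∀ (Γ : Type) [Group Γ] [Finite Γ] (N G : Subgroup Γ) [N.Normal]
        [G.Normal], N ≤ G → X N → IsPGroup p (Γ ⧸ N) → ∀ B : (G → F) → F, IsBlock B →
        IsInvBlock G B →
        (numIBr G B : ℝ) ≤ c * (Nat.card G : ℝ) ^ ε * thetaSum p red G B ∧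
        (thetaSum p red G B : ℝ) ≤ c * (Nat.card G : ℝ) ^ ε * numIBr G B,
      -- (4)
      ∀ (H : Type) [Group H] [Finite H], n₀ ≤ Nat.card H → X H → (q ≠ p → Reduced p H) →
        ∀ B : (H → F) → F, IsBlock B → ∀ B' : (RegularWreathProduct H C → F) → F, IsBlock B' →
          LiesOver B B' → numIrrBlock B' ≡ numWts p red B' [MOD m],
      -- (5)
      ∀ ε : ℝ, 0 < ε → ∃ c : ℝ, ∀ (H : Type) [Group H] [Finite H], X H → Reduced p H →
        ∀ B : (H → F) → F, IsBlock B →
          (numIrrBlock B : ℝ) ≤ c * (Nat.card H : ℝ) ^ ε * numWts p red B ∧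
          (numWts p red B : ℝ) ≤ c * (Nat.card H : ℝ) ^ ε * numIrrBlock B] :=
  Pool.Agent.E8helper60.AW.nav_tfae (p := p) red q hq C hC X hX hwr m n₀ hm

end Pool.Agent.Results.MP_0c8ca5_al.OneCongruenceH60
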