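import Pool.Agent.E8helper60.NP.Main

/-!
# Navarro's blockwise conjecture for principal blocks

Let `p` be a prime, `F` an algebraically closed field of characteristic `p` and `red` a ring
homomorphism from the ring of the algebraic integers of `ℂ` to `F`. A block of the finite group `G`
is given by its central character, an `F`-algebra homomorphism from the class functions `G → F`
(the centre of `F[G]`) to `F` (`IsBlock`); the one of the principal block `B₀(G)` is the augmentation
map `principal F G`. Let `G` be a normal subgroup of `Γ` with `Γ/G` a `p`-group. Notation: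

* `numIBr G B = |IBr_Γ(B)|`, and `numDz p red G Q B = |dz(N_Γ(Q)/Q | B)|`;
* `thetaSum p red G B`: the right hand side of Navarro's equality, the sum over `Θ_B/Γ`;
* `numIBrOver G K`, for a normal subgroup `K ≤ G` of `Γ`: the number of the `Γ`-invariant irreducible
  Brauer characters in the blocks of `G` which cover `B₀(K)`; for `K = 1` these are all blocks;
* `numDzOver p red K Q`: the number of the `θ ∈ dz(N_Γ(Q)/Q)` such that `bl(θ)^Γ` covers `B₀(K)`;
* `numIrrBlock B = l(B)`, and `numWts p red B = w(B)`: the number of the classes of weights of `B`;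
* `H ≀ᵣ C` (`RegularWreathProduct H C`): the wreath product of `H` with a group `C` of order `p`.

The idea: the sum `s` of the `p`-regular elements of a normal subgroup `K` of `Γ` detects the blocks
over `B₀(K)`: a homomorphism `Z(F[K])^Γ → F` which is not the augmentation vanishes at `s`, and the
augmentation of `s` is not zero. (A new proof, in the integral group ring, with powers `z ^ (p ^ n)`
of an element `z` of augmentation `0`.) The elements `s` are compatible with the Brauer homomorphisms
(this gives Brauer's third main theorem) and with quotients by normal `p`-subgroups `M`, where `s`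
goes to the sum of the `p`-regular elements of the image of `C_K(M)`. So principal blocks of
quotients by `p`-groups are replaced by blocks over principal blocks of normal subgroups, and these
are in turn obtained from the principal block of an extension by a `p`-group.
-/

set_option autoImplicit false

open scoped Classical

noncomputable section

namespace Pool.Agent.Results.MP_0c8ca5_al.PrincipalBlocksH60

open Pool.Agent.Y63.NV (IsIrrTrace IsInvUnder IsClassFun InZ IsBlock IsWt centralValue InDefect
  numIBr numDz numIrrBlock numWtBlock Closed)
open Pool.Agent.Y63.AWC (pSubgroupSetoid)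

section

variable {F : Type} [Field F]

/-- The augmentation map: the central character of the principal block of `G`. -/
def principal (F : Type) [Field F] (G : Type) [Group G] : (G → F) → F := fun f => ∑ᶠ g : G, f g

/-- `w(B)`: the number of the conjugacy classes of weights of the block `B` of `H`. -/
def numWts {H : Type} [Group H] (p : ℕ) (red : integralClosure ℤ ℂ →+* F) (B : (H → F) → F) : ℕ :=
  ∑ᶠ c : Quotient (pSubgroupSetoid p H), numWtBlock p red c.out.1 B

variable {Γ : Type} [Group Γ]

/-- The right hand side of Navarro's equality, the sum of `|dz(N_Γ(Q)/Q | B)|` over the `Γ`-classes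
of `Θ_B`, the set of the `p`-subgroups `Q` of `Γ` with `GQ = Γ` such that `Q ∩ G` is contained in a
defect group of `B`. -/
def thetaSum (p : ℕ) (red : integralClosure ℤ ℂ →+* F) (G : Subgroup Γ) (B : (G → F) → F) : ℕ :=
  ∑ᶠ c : Quotient (pSubgroupSetoid p Γ),
    if G ⊔ c.out.1 = ⊤ ∧ InDefect p G B c.out.1 then numDz p red G c.out.1 B else 0

/-- The number of the `Γ`-invariant irreducible characters `φ` of `G` over `F` which lie over the
principal block of the normal subgroup `K` of `Γ`: each element `z` of `Z(F[K])^Γ` (a class function
of `Γ` supported in `K`) acts on `φ` as the sum of its values. -/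
def numIBrOver (G K : Subgroup Γ) : ℕ :=
  Nat.card {φ : G → F // IsIrrTrace φ ∧ IsInvUnder ⊤ φ ∧
    ∀ z : Γ → F, InZ K z → ∀ x : G, ∑ᶠ g : G, z g * φ (g * x) = (∑ᶠ g : Γ, z g) * φ x}

/-- The number of the characters of `p`-defect zero of `N_Γ(Q)/Q` such that the block of `Γ` induced
by the block of the inflation `χ` lies over the principal block of `K`. -/
def numDzOver (p : ℕ) (red : integralClosure ℤ ℂ →+* F) (K Q : Subgroup Γ) : ℕ :=
  Nat.card {χ : Subgroup.normalizer (Q : Set Γ) → ℂ //
    IsWt p (Q.subgroupOf (Subgroup.normalizer (Q : Set Γ))) χ ∧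
    ∀ z : Γ → F, InZ K z → centralValue red χ (fun x => z x) = ∑ᶠ g : Γ, z g}

end

/-- **Navarro's conjecture for principal blocks.** Let `C` be a group of order `p`, let `X` be a
class of groups closed under isomorphisms, subgroups, quotients by normal `p`-subgroups, extensions
by normal `p`-subgroups and wreath products with `C` (for example all groups), let `m` be a multiple
of `p` and let `n₀` be a natural number. The following are equivalent:

(1) Navarro's equality `|IBr_Γ(B)| = ∑_{Q ∈ Θ_B/Γ} |dz(N_Γ(Q)/Q | B)|` for the principal block
`B = B₀(G)` of all finite groups `G` in `X` and all finite groups `Γ ⊵ G` with `Γ/G` a `p`-group;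

(2) the two sides of (1) are congruent modulo `m` for all these `Γ`, `G` with `|G| ≥ n₀`;

(3) for each `ε > 0` there is a constant `c` such that, for all these `Γ`, `G`, each side of (1) is
at most `c |G|^ε` times the other;

(4) for all these `Γ`, `G` and all normal subgroups `K ≤ G` of `Γ`, the sums of the two sides of
Navarro's equality over the blocks of `G` which cover the principal block of `K` are equal;
in particular (`K = 1`) the number of all `Γ`-invariant irreducible Brauer characters of `G` is
`∑_Q |dz(N_Γ(Q)/Q)|`, and (`Γ = G`, `K = 1`) the number of all irreducible Brauer characters of `G`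
is the number of all classes of weights of `G`;

(5) `l(B₀(H)) = w(B₀(H))` for all finite groups `H` in `X`, the weight conjecture for principal
blocks;

(6) `l(B₀(H ≀ᵣ C)) ≡ w(B₀(H ≀ᵣ C))` modulo `m` for all finite groups `H` in `X` with `|H| ≥ n₀`;

(7) for each `ε > 0` there is a constant `c` with `l(B₀(H)) ≤ c |H|^ε w(B₀(H))` and
`w(B₀(H)) ≤ c |H|^ε l(B₀(H))` for all finite groups `H` in `X`. -/
theorem result (p : ℕ) [Fact p.Prime] (F : Type) [Field F] [IsAlgClosed F] [CharP F p]
    (red : integralClosure ℤ ℂ →+* F) (C : Type) [Group C] [Fintype C] (hC : Nat.card C = p)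
    (X : ∀ (G : Type) [Group G], Prop) (hX : Closed p X)
    (hext : ∀ (G : Type) [Group G] (M : Subgroup G) [M.Normal], IsPGroup p M → X (G ⧸ M) → X G)
    (hwr : ∀ (G : Type) [Group G] [Finite G], X G → X (RegularWreathProduct G C))
    (m n₀ : ℕ) (hm : p ∣ m) :
    List.TFAE [
      -- (1)
      ∀ (Γ : Type) [Group Γ] [Finite Γ] (G : Subgroup Γ) [G.Normal], X G → IsPGroup p (Γ ⧸ G) →
        numIBr G (principal F G) = thetaSum p red G (principal F G),
      -- (2)
      ∀ (Γ : Type) [Group Γ] [Finite Γ] (G : Subgroup Γ) [G.Normal], X G → IsPGroup p (Γ ⧸ G) →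
        n₀ ≤ Nat.card G →
        numIBr G (principal F G) ≡ thetaSum p red G (principal F G) [MOD m],
      -- (3)
      ∀ ε : ℝ, 0 < ε → ∃ c : ℝ, ∀ (Γ : Type) [Group Γ] [Finite Γ] (G : Subgroup Γ) [G.Normal],
        X G → IsPGroup p (Γ ⧸ G) →
        (numIBr G (principal F G) : ℝ) ≤
          c * (Nat.card G : ℝ) ^ ε * thetaSum p red G (principal F G) ∧
        (thetaSum p red G (principal F G) : ℝ) ≤
          c * (Nat.card G : ℝ) ^ ε * numIBr G (principal F G),
      -- (4)
      ∀ (Γ : Type) [Group Γ] [Finite Γ] (G K : Subgroup Γ) [G.Normal] [K.Normal], K ≤ G → X G →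
        IsPGroup p (Γ ⧸ G) →
        numIBrOver (F := F) G K = ∑ᶠ d : Quotient (pSubgroupSetoid p Γ),
          if G ⊔ d.out.1 = ⊤ then numDzOver p red K d.out.1 else 0,
      -- (5)
      ∀ (H : Type) [Group H] [Finite H], X H →
        numIrrBlock (principal F H) = numWts p red (principal F H),
      -- (6)
      ∀ (H : Type) [Group H] [Finite H], n₀ ≤ Nat.card H → X H →
        numIrrBlock (principal F (RegularWreathProduct H C)) ≡
          numWts p red (principal F (RegularWreathProduct H C)) [MOD m],
      -- (7)
      ∀ ε : ℝ, 0 < ε → ∃ c : ℝ, ∀ (H : Type) [Group H] [Finite H], X H →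
        (numIrrBlock (principal F H) : ℝ) ≤
          c * (Nat.card H : ℝ) ^ ε * numWts p red (principal F H) ∧
        (numWts p red (principal F H) : ℝ) ≤
          c * (Nat.card H : ℝ) ^ ε * numIrrBlock (principal F H)] :=
  Pool.Agent.E8helper60.NP.main_tfae (p := p) red C hC X hX hext hwr m n₀ hm

end Pool.Agent.Results.MP_0c8ca5_al.PrincipalBlocksH60
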