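import Pool.Agent.E8helper46.AW.Nav

/-!
# Navarro's blockwise conjecture for odd primes: parities of real blocks decide

Let `p` be an odd prime, `F` an algebraically closed field of characteristic `p` and
`red` a ring homomorphism from the ring of the algebraic integers of `ℂ` to `F`. A block of `G` is
given by its central character, an `F`-algebra homomorphism `B` from the class functions `G → F` (the
centre of `F[G]`) to `F`; it is real if `B(f) = B(f°)` for all class functions `f`, where
`f°(x) = f(x⁻¹)`. Notation:

* `numIBr G B = |IBr_Γ(B)|`, and `numDz p red G Q B = |dz(N_Γ(Q)/Q | B)|`;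
* `InDefect p G B Q`: `Q ∩ G` is contained in a defect group of `B`;
* `NavarroTheta p red G`: Navarro's equality for all `Γ`-invariant blocks `B` of `G`;
* `Reduced p H`: `H` has no normal subgroup of index `p` and no nontrivial normal `p`-subgroup;
* `Wr G`: the wreath product of `G` with the group of order two.

The proof is that of `Pool.Agent.Results.MP_78bba1_al.RealBlocksParityH46`, together with the
equivalence of Navarro's equality for a class of groups with the blockwise weight conjecture for the
reduced groups in the class.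
-/

set_option autoImplicit false

noncomputable section

namespace Pool.Agent.Results.MP_0c8ca5_al.RealBlocksDecideH46

open scoped Classical

open Pool.Agent.Y63.NV (IsIrrTrace IsClassFun IsBlock IsInvBlock IsInvUnder IsWt InZ InDefect
  centralValue numIBr numDz NavarroTheta Closed Reduced)
open Pool.Agent.Y63.AWC (pSubgroupSetoid)
open Pool.Agent.Q90.WR (Wr)

section

variable {F : Type} [Field F]

/-- The block `B` is real, i.e. equal to its dual block: `B(f) = B(f°)` for all class functions `f`,
where `f°(x) = f(x⁻¹)`. -/
def IsRealBlock {G : Type} [Group G] (B : (G → F) → F) : Prop :=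
  ∀ f : G → F, IsClassFun f → B (fun x => f x⁻¹) = B f

variable {Γ : Type} [Group Γ]

/-- The right hand side of Navarro's equality, the sum of `|dz(N_Γ(Q)/Q | B)|` over the `Γ`-classes
of `Θ_B`, the set of the `p`-subgroups `Q` of `Γ` with `GQ = Γ` such that `Q ∩ G` is contained in a
defect group of `B`. -/
def thetaSum (p : ℕ) (red : integralClosure ℤ ℂ →+* F) (G : Subgroup Γ) (B : (G → F) → F) : ℕ :=
  ∑ᶠ c : Quotient (pSubgroupSetoid p Γ),
    if G ⊔ c.out.1 = ⊤ ∧ InDefect p G B c.out.1 then numDz p red G c.out.1 B else 0

/-- The number of the self-dual members of `IBr_Γ(B)`. -/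
def numSelfDualIBr (G : Subgroup Γ) (B : (G → F) → F) : ℕ :=
  Nat.card {φ : G → F // (IsIrrTrace φ ∧ IsInvUnder ⊤ φ ∧
    ∀ f : G → F, IsClassFun f → ∀ x : G, ∑ᶠ g : G, f g * φ (g * x) = B f * φ x) ∧
    ∀ g : G, φ g⁻¹ = φ g}

/-- The sum of the numbers of the real-valued members of `dz(N_Γ(Q)/Q | B)` over the `Γ`-classes of
`Θ_B`. -/
def realThetaSum (p : ℕ) (red : integralClosure ℤ ℂ →+* F) (G : Subgroup Γ) (B : (G → F) → F) : ℕ :=
  ∑ᶠ c : Quotient (pSubgroupSetoid p Γ),
    if G ⊔ c.out.1 = ⊤ ∧ InDefect p G B c.out.1 then
      Nat.card {χ : Subgroup.normalizer (c.out.1 : Set Γ) → ℂ //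
        (IsWt p (c.out.1.subgroupOf (Subgroup.normalizer (c.out.1 : Set Γ))) χ ∧
        ∀ z : Γ → F, InZ G z → centralValue red χ (fun x => z x) = B (fun x : G => z x)) ∧
        ∀ g, (χ g).im = 0} else 0

variable {H : Type} [Group H]

/-- The number of the self-dual irreducible characters of `H` over `F` in the block `B`. -/
def numSelfDualIrr (B : (H → F) → F) : ℕ :=
  Nat.card {φ : H → F // (IsIrrTrace φ ∧
    ∀ f : H → F, IsClassFun f → ∀ x : H, ∑ᶠ g : H, f g * φ (g * x) = B f * φ x) ∧
    ∀ g : H, φ g⁻¹ = φ g}

/-- The number of the conjugacy classes of the weights `(Q, χ)` of the block `B` with real-valued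
`χ`. -/
def numRealWts (p : ℕ) (red : integralClosure ℤ ℂ →+* F) (B : (H → F) → F) : ℕ :=
  ∑ᶠ c : Quotient (pSubgroupSetoid p H),
    Nat.card {χ : Subgroup.normalizer (c.out.1 : Set H) → ℂ //
      (IsWt p (c.out.1.subgroupOf (Subgroup.normalizer (c.out.1 : Set H))) χ ∧
      ∀ f : H → F, IsClassFun f → centralValue red χ (fun x => f x) = B f) ∧
      ∀ g, (χ g).im = 0}

end

/-- **Parities of real blocks decide Navarro's conjecture for odd primes.** Let `p` be an odd prime
and let `X` be a class of groups closed under isomorphisms, subgroups, quotients by normal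
`p`-subgroups and under `G ↦ G ≀ C₂` (for instance the class of all groups). The following are
equivalent:
(1) Navarro's equality `|IBr_Γ(B)| = ∑_{Q ∈ Θ_B/Γ} |dz(N_Γ(Q)/Q | B)|` holds for all `Γ`-invariant
blocks `B` of all normal subgroups `G` of finite groups `Γ` such that `G` contains a normal subgroup
`N` of `Γ` in `X` for which `Γ/N` is a `p`-group;
(2) the two sides are congruent modulo two for these `Γ`, `G` and the `Γ`-invariant real blocks `B`;
(3) for these `Γ`, `G`, `B` the number of the self-dual members of `IBr_Γ(B)` is congruent modulo two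
to the sum over `Θ_B/Γ` of the numbers of the real-valued members of `dz(N_Γ(Q)/Q | B)`;
(4) for all finite groups `H` in `X` without normal subgroups of index `p` and without nontrivial
normal `p`-subgroups and all real blocks `B` of `H`, the number of the self-dual irreducible
characters of `H` over `F` in `B` and the number of the classes of real-valued weights of `B` have
the same parity. -/
theorem result (p : ℕ) [Fact p.Prime] (hp2 : p ≠ 2) (F : Type) [Field F] [IsAlgClosed F] [CharP F p]
    (red : integralClosure ℤ ℂ →+* F) (X : ∀ (G : Type) [Group G], Prop) (hX : Closed p X)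
    (hwr : ∀ (G : Type) [Group G], X G → X (Wr G)) :
    List.TFAE [
      ∀ (Γ : Type) [Group Γ] [Finite Γ] (N G : Subgroup Γ) [N.Normal] [G.Normal], N ≤ G → X N →
        IsPGroup p (Γ ⧸ N) → NavarroTheta p red G,
      ∀ (Γ : Type) [Group Γ] [Finite Γ] (N G : Subgroup Γ) [N.Normal] [G.Normal], N ≤ G → X N →
        IsPGroup p (Γ ⧸ N) → ∀ B : (G → F) → F, IsBlock B → IsInvBlock G B → IsRealBlock B →
        numIBr G B ≡ thetaSum p red G B [MOD 2],
      ∀ (Γ : Type) [Group Γ] [Finite Γ] (N G : Subgroup Γ) [N.Normal] [G.Normal], N ≤ G → X N →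
        IsPGroup p (Γ ⧸ N) → ∀ B : (G → F) → F, IsBlock B → IsInvBlock G B → IsRealBlock B →
        numSelfDualIBr G B ≡ realThetaSum p red G B [MOD 2],
      ∀ (H : Type) [Group H] [Finite H], X H → Reduced p H → ∀ B : (H → F) → F, IsBlock B →
        IsRealBlock B → numSelfDualIrr B ≡ numRealWts p red B [MOD 2]] :=
  Pool.Agent.E8helper46.AW.nav_tfae hp2 red X hX hwr

end Pool.Agent.Results.MP_0c8ca5_al.RealBlocksDecideH46
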